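import Mathlib

set_option autoImplicit false

namespace Pool.Agent.Results.MP_0f9b7a_co.KTwoTwo

/-- abstract incidence relation -/
def R (u v : ℕ × ℕ × ℕ) : Prop := u.1 + u.2.1 * v.1 + u.2.2 * v.2.1 = v.2.2

instance (u v : ℕ × ℕ × ℕ) : Decidable (R u v) := by unfold R; infer_instance

/-- no two elements of `U` are both related to two elements of `V` -/
def Free (U V : Finset (ℕ × ℕ × ℕ)) : Prop :=
  ∀ u ∈ U, ∀ u' ∈ U, ∀ v ∈ V, ∀ v' ∈ V, u ≠ u' → v ≠ v' → ¬ (R u v ∧ R u' v ∧ R u v' ∧ R u' v')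

lemma exists_slope (M q : ℕ) (hq : q.Prime) (h1 : 4 * M ^ 2 + 2 * M < q) :
    ∃ t : ZMod q, ∀ x y : ℤ, |x| ≤ M → |y| ≤ M → ¬ (x = 0 ∧ y = 0) →
      (y : ZMod q) ≠ t * x := by
  classical
  have : Fact q.Prime := ⟨hq⟩
  set B : Finset (ZMod q) := (((Finset.Icc (-(M : ℤ)) M).erase 0) ×ˢ
    (Finset.Icc (-(M : ℤ)) M)).image (fun p : ℤ × ℤ => (p.2 : ZMod q) / (p.1 : ZMod q)) with hB
  have hBcard : B.card < Fintype.card (ZMod q) := by
    rw [ZMod.card]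
    refine lt_of_le_of_lt Finset.card_image_le ?_
    rw [Finset.card_product, Finset.card_erase_of_mem (by simp), Int.card_Icc]
    have : ((M : ℤ) + 1 - -(M : ℤ)).toNat = 2 * M + 1 := by omega
    rw [this]
    calc (2 * M + 1 - 1) * (2 * M + 1) = 4 * M ^ 2 + 2 * M := by
          rw [Nat.add_sub_cancel]; ring
      _ < q := h1
  obtain ⟨t, ht⟩ : ∃ t, t ∉ B := by
    by_contra hc
    push Not at hc
    have : B = Finset.univ := Finset.eq_univ_iff_forall.mpr hc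
    rw [this, Finset.card_univ] at hBcard
    exact lt_irrefl _ hBcard
  refine ⟨t, ?_⟩
  intro x y hx hy hne heq
  have hMq : (M : ℤ) < q := by
    have : M < q := by nlinarith
    exact_mod_cast this
  have small : ∀ z : ℤ, |z| ≤ M → (z : ZMod q) = 0 → z = 0 := by
    intro z hz h0
    rw [ZMod.intCast_zmod_eq_zero_iff_dvd] at h0
    exact Int.eq_zero_of_abs_lt_dvd h0 (lt_of_le_of_lt hz hMq)
  by_cases hx0 : x = 0
  · subst hx0
    have : (y : ZMod q) = 0 := by rw [heq]; simp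
    exact hne ⟨rfl, small y hy this⟩
  · have hx1 : (x : ZMod q) ≠ 0 := fun h => hx0 (small x hx h)
    apply ht
    rw [hB, Finset.mem_image]
    refine ⟨(x, y), ?_, ?_⟩
    · rw [Finset.mem_product, Finset.mem_erase, Finset.mem_Icc, Finset.mem_Icc]
      exact ⟨⟨hx0, abs_le.mp hx⟩, abs_le.mp hy⟩
    · simp only
      rw [heq]
      field_simp

/-- the set of normals -/
lemma exists_normals (M Q q : ℕ) (hq : q.Prime) (h1 : 4 * M ^ 2 + 2 * M < q) (h2 : Q ≤ q) :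
    ∃ N : Finset (ℕ × ℕ), N.card = Q ^ 2 / q ∧ (∀ p ∈ N, p.1 < Q ∧ p.2 < Q) ∧
      ∀ p ∈ N, ∀ p' ∈ N, ∀ b c : ℤ, |b| ≤ M → |c| ≤ M →
        b * ((p.1 : ℤ) - p'.1) + c * ((p.2 : ℤ) - p'.2) = 0 → p = p' ∨ (b = 0 ∧ c = 0) := by
  classical
  have : Fact q.Prime := ⟨hq⟩
  obtain ⟨t, ht⟩ := exists_slope M q hq h1
  have hq0 : 0 < q := hq.pos
  obtain ⟨r, _, hr⟩ := Finset.exists_le_card_fiber_of_mul_le_card_of_maps_to
    (s := Finset.range Q ×ˢ Finset.range Q) (t := (Finset.univ : Finset (ZMod q)))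
    (f := fun p : ℕ × ℕ => (p.2 : ZMod q) - t * p.1) (n := Q ^ 2 / q)
    (fun _ _ => Finset.mem_univ _) Finset.univ_nonempty
    (by
      rw [Finset.card_univ, ZMod.card, Finset.card_product, Finset.card_range, ← sq]
      exact Nat.mul_div_le _ _)
  obtain ⟨N, hN, hNc⟩ := Finset.exists_subset_card_eq hr
  refine ⟨N, hNc, ?_, ?_⟩
  · intro p hp
    have := (Finset.mem_filter.mp (hN hp)).1
    rw [Finset.mem_product, Finset.mem_range, Finset.mem_range] at this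
    exact this
  · intro p hp p' hp' b c hb hc heq
    have m1 := Finset.mem_filter.mp (hN hp)
    have m2 := Finset.mem_filter.mp (hN hp')
    rw [Finset.mem_product, Finset.mem_range, Finset.mem_range] at m1 m2
    have e1 : (p.2 : ZMod q) - p'.2 = t * ((p.1 : ZMod q) - p'.1) := by
      have a1 : (p.2 : ZMod q) - t * p.1 = r := m1.2
      have a2 : (p'.2 : ZMod q) - t * p'.1 = r := m2.2
      linear_combination a1 - a2
    have e2 : (b : ZMod q) * ((p.1 : ZMod q) - p'.1) + c * ((p.2 : ZMod q) - p'.2) = 0 := by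
      have := congrArg (Int.cast : ℤ → ZMod q) heq
      push_cast at this
      exact this
    rw [e1] at e2
    have e3 : ((p.1 : ZMod q) - p'.1) * (b + c * t) = 0 := by linear_combination e2
    have small : ∀ z : ℤ, |z| < q → (z : ZMod q) = 0 → z = 0 := by
      intro z hz h0
      rw [ZMod.intCast_zmod_eq_zero_iff_dvd] at h0
      exact Int.eq_zero_of_abs_lt_dvd h0 hz
    rcases mul_eq_zero.mp e3 with h | h
    · left
      have z1 : ((p.1 : ℤ) - p'.1) = 0 := by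
        apply small
        · rw [abs_lt]; constructor <;> omega
        · push_cast; exact h
      have z2 : ((p.2 : ℤ) - p'.2) = 0 := by
        apply small
        · rw [abs_lt]; constructor <;> omega
        · push_cast; rw [e1, h, mul_zero]
      exact Prod.ext (by omega) (by omega)
    · right
      by_contra hne
      apply ht (-c) b (by rwa [abs_neg]) hb
      · rintro ⟨k1, k2⟩
        exact hne ⟨k2, by omega⟩
      · push_cast
        linear_combination h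

/-- main combinatorial configuration -/
lemma core (M Q q m n : ℕ) (hq : q.Prime) (h1 : 4 * M ^ 2 + 2 * M < q) (h2 : Q ≤ q)
    (hm : M * Q * (M + 1) ^ 2 ≤ m) (hn : (Q ^ 2 / q) * (3 * (M * Q)) ≤ n) :
    ∃ U V : Finset (ℕ × ℕ × ℕ), U.card = m ∧ V.card = n ∧ Free U V ∧
      M * Q * (M + 1) ^ 2 * (Q ^ 2 / q) ≤ ((U ×ˢ V).filter (fun p => R p.1 p.2)).card := by
  classical
  obtain ⟨N, hNc, hNlt, hN⟩ := exists_normals M Q q hq h1 h2
  set K := 3 * (M * Q) with hK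
  set U₀ : Finset (ℕ × ℕ × ℕ) :=
    Finset.range (M * Q) ×ˢ (Finset.range (M + 1) ×ˢ Finset.range (M + 1)) with hU₀
  set V₀ : Finset (ℕ × ℕ × ℕ) :=
    (N ×ˢ Finset.range K).image (fun p => (p.1.1, p.1.2, p.2)) with hV₀
  set U₁ : Finset (ℕ × ℕ × ℕ) :=
    (Finset.range (m - M * Q * (M + 1) ^ 2)).image (fun i => (K + i, 0, 0)) with hU₁
  set V₁ : Finset (ℕ × ℕ × ℕ) :=
    (Finset.range (n - (Q ^ 2 / q) * K)).image (fun i => (0, 0, K + m + i)) with hV₁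
  have cU₀ : U₀.card = M * Q * (M + 1) ^ 2 := by
    rw [hU₀, Finset.card_product, Finset.card_product, Finset.card_range, Finset.card_range]
    ring
  have cV₀ : V₀.card = (Q ^ 2 / q) * K := by
    rw [hV₀, Finset.card_image_of_injective, Finset.card_product, Finset.card_range, hNc]
    rintro ⟨⟨a, b⟩, c⟩ ⟨⟨a', b'⟩, c'⟩ h
    simp only [Prod.mk.injEq] at h ⊢
    tauto
  have cU₁ : U₁.card = m - M * Q * (M + 1) ^ 2 := by
    rw [hU₁, Finset.card_image_of_injective, Finset.card_range]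
    intro i j h
    simp only [Prod.mk.injEq] at h
    omega
  have cV₁ : V₁.card = n - (Q ^ 2 / q) * K := by
    rw [hV₁, Finset.card_image_of_injective, Finset.card_range]
    intro i j h
    simp only [Prod.mk.injEq] at h
    omega
  have memU₀ : ∀ u ∈ U₀, u.1 < M * Q ∧ u.2.1 ≤ M ∧ u.2.2 ≤ M := by
    intro u hu
    rw [hU₀, Finset.mem_product, Finset.mem_product, Finset.mem_range, Finset.mem_range,
      Finset.mem_range] at hu
    omega
  have memV₀ : ∀ v ∈ V₀, (v.1, v.2.1) ∈ N ∧ v.2.2 < K := by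
    intro v hv
    rw [hV₀, Finset.mem_image] at hv
    obtain ⟨p, hp, rfl⟩ := hv
    rw [Finset.mem_product, Finset.mem_range] at hp
    exact ⟨hp.1, hp.2⟩
  have memU₁ : ∀ u ∈ U₁, K ≤ u.1 ∧ u.1 < K + m ∧ u.2.1 = 0 ∧ u.2.2 = 0 := by
    intro u hu
    rw [hU₁, Finset.mem_image] at hu
    obtain ⟨i, hi, rfl⟩ := hu
    rw [Finset.mem_range] at hi
    refine ⟨by simp, ?_, rfl, rfl⟩
    simp only
    omega
  have memV₁ : ∀ v ∈ V₁, v.1 = 0 ∧ v.2.1 = 0 ∧ K + m ≤ v.2.2 := by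
    intro v hv
    rw [hV₁, Finset.mem_image] at hv
    obtain ⟨i, hi, rfl⟩ := hv
    exact ⟨rfl, rfl, by simp⟩
  have hval : ∀ u ∈ U₀, ∀ x y : ℕ, x < Q → y < Q → u.1 + u.2.1 * x + u.2.2 * y < K := by
    intro u hu x y hx hy
    obtain ⟨a1, a2, a3⟩ := memU₀ u hu
    have b1 : u.2.1 * x ≤ M * Q := Nat.mul_le_mul a2 hx.le
    have b2 : u.2.2 * y ≤ M * Q := Nat.mul_le_mul a3 hy.le
    omega
  have noR₁ : ∀ u ∈ U₁, ∀ v ∈ V₀ ∪ V₁, ¬ R u v := by
    intro u hu v hv hR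
    obtain ⟨a1, a2, a3, a4⟩ := memU₁ u hu
    unfold R at hR
    rw [a3, a4] at hR
    rcases Finset.mem_union.mp hv with hv | hv
    · obtain ⟨_, b⟩ := memV₀ v hv
      omega
    · obtain ⟨_, _, b⟩ := memV₁ v hv
      omega
  have noR₂ : ∀ u ∈ U₀ ∪ U₁, ∀ v ∈ V₁, ¬ R u v := by
    intro u hu v hv hR
    obtain ⟨b1, b2, b3⟩ := memV₁ v hv
    unfold R at hR
    rw [b1, b2] at hR
    rcases Finset.mem_union.mp hu with hu | hu
    · obtain ⟨a, _, _⟩ := memU₀ u hu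
      omega
    · obtain ⟨_, a, _, _⟩ := memU₁ u hu
      omega
  have dU : Disjoint U₀ U₁ := by
    rw [Finset.disjoint_left]
    intro u h0 h1
    have := (memU₀ u h0).1
    have := (memU₁ u h1).1
    omega
  have dV : Disjoint V₀ V₁ := by
    rw [Finset.disjoint_left]
    intro v h0 h1
    have := (memV₀ v h0).2
    have := (memV₁ v h1).2.2
    omega
  refine ⟨U₀ ∪ U₁, V₀ ∪ V₁, ?_, ?_, ?_, ?_⟩
  · rw [Finset.card_union_of_disjoint dU, cU₀, cU₁]; omega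
  · rw [Finset.card_union_of_disjoint dV, cV₀, cV₁]; omega
  · intro u hu u' hu' v hv v' hv' huu hvv ⟨r1, r2, r3, r4⟩
    have hu0 : u ∈ U₀ := by
      rcases Finset.mem_union.mp hu with h | h
      · exact h
      · exact absurd r1 (noR₁ u h v hv)
    have hu0' : u' ∈ U₀ := by
      rcases Finset.mem_union.mp hu' with h | h
      · exact h
      · exact absurd r2 (noR₁ u' h v hv)
    have hv0 : v ∈ V₀ := by
      rcases Finset.mem_union.mp hv with h | h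
      · exact h
      · exact absurd r1 (noR₂ u hu v h)
    have hv0' : v' ∈ V₀ := by
      rcases Finset.mem_union.mp hv' with h | h
      · exact h
      · exact absurd r3 (noR₂ u hu v' h)
    obtain ⟨a1, a2, a3⟩ := memU₀ u hu0
    obtain ⟨b1, b2, b3⟩ := memU₀ u' hu0'
    obtain ⟨c1, c2⟩ := memV₀ v hv0
    obtain ⟨d1, d2⟩ := memV₀ v' hv0'
    unfold R at r1 r2 r3 r4
    have s1 : (u.1 : ℤ) + u.2.1 * v.1 + u.2.2 * v.2.1 = v.2.2 := by exact_mod_cast r1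
    have s2 : (u'.1 : ℤ) + u'.2.1 * v.1 + u'.2.2 * v.2.1 = v.2.2 := by exact_mod_cast r2
    have s3 : (u.1 : ℤ) + u.2.1 * v'.1 + u.2.2 * v'.2.1 = v'.2.2 := by exact_mod_cast r3
    have s4 : (u'.1 : ℤ) + u'.2.1 * v'.1 + u'.2.2 * v'.2.1 = v'.2.2 := by exact_mod_cast r4
    rcases hN _ c1 _ d1 ((u.2.1 : ℤ) - u'.2.1) ((u.2.2 : ℤ) - u'.2.2)
      (by rw [abs_le]; constructor <;> omega) (by rw [abs_le]; constructor <;> omega)
      (by simp only; linear_combination s1 - s2 - s3 + s4) with h | ⟨h, h'⟩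
    · apply hvv
      have e1 : v.1 = v'.1 := (Prod.ext_iff.mp h).1
      have e2 : v.2.1 = v'.2.1 := (Prod.ext_iff.mp h).2
      rw [e1, e2] at r1
      exact Prod.ext e1 (Prod.ext e2 (by rw [← r1, ← r3]))
    · apply huu
      have e1 : u.2.1 = u'.2.1 := by omega
      have e2 : u.2.2 = u'.2.2 := by omega
      rw [e1, e2] at r1
      exact Prod.ext (by omega) (Prod.ext e1 e2)
  · have hinj : Set.InjOn (fun p : (ℕ × ℕ × ℕ) × (ℕ × ℕ) =>
        ((p.1, (p.2.1, p.2.2, p.1.1 + p.1.2.1 * p.2.1 + p.1.2.2 * p.2.2)) :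
          (ℕ × ℕ × ℕ) × (ℕ × ℕ × ℕ))) ((U₀ ×ˢ N : Finset _) : Set _) := by
      rintro ⟨u, x, y⟩ _ ⟨u', x', y'⟩ _ h
      simp only [Prod.mk.injEq] at h ⊢
      tauto
    calc M * Q * (M + 1) ^ 2 * (Q ^ 2 / q) = (U₀ ×ˢ N).card := by
          rw [Finset.card_product, cU₀, hNc]
      _ = ((U₀ ×ˢ N).image (fun p : (ℕ × ℕ × ℕ) × (ℕ × ℕ) =>
        ((p.1, (p.2.1, p.2.2, p.1.1 + p.1.2.1 * p.2.1 + p.1.2.2 * p.2.2)) :
          (ℕ × ℕ × ℕ) × (ℕ × ℕ × ℕ)))).card := (Finset.card_image_of_injOn hinj).symm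
      _ ≤ _ := by
          apply Finset.card_le_card
          intro z hz
          rw [Finset.mem_image] at hz
          obtain ⟨⟨u, x, y⟩, hp, rfl⟩ := hz
          rw [Finset.mem_product] at hp
          rw [Finset.mem_filter, Finset.mem_product]
          refine ⟨⟨Finset.mem_union_left _ hp.1, Finset.mem_union_left _ ?_⟩, rfl⟩
          rw [hV₀, Finset.mem_image]
          refine ⟨((x, y), _), ?_, rfl⟩
          rw [Finset.mem_product, Finset.mem_range]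
          have := hNlt _ hp.2
          exact ⟨hp.2, hval u hp.1 x y this.1 this.2⟩

/-- the trivial configuration -/
lemma triv (m n : ℕ) (hm : 1 ≤ m) (hn : 1 ≤ n) :
    ∃ U V : Finset (ℕ × ℕ × ℕ), U.card = m ∧ V.card = n ∧ Free U V ∧
      m + n - 1 ≤ ((U ×ˢ V).filter (fun p => R p.1 p.2)).card := by
  classical
  set U : Finset (ℕ × ℕ × ℕ) := (Finset.range m).image (fun i => (0, i, 0)) with hU
  set V : Finset (ℕ × ℕ × ℕ) := (Finset.range n).image (fun j => (j, 0, 0)) with hV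
  have memU : ∀ u ∈ U, u.1 = 0 ∧ u.2.2 = 0 := by
    intro u hu
    rw [hU, Finset.mem_image] at hu
    obtain ⟨i, _, rfl⟩ := hu
    exact ⟨rfl, rfl⟩
  have memV : ∀ v ∈ V, v.2.1 = 0 ∧ v.2.2 = 0 := by
    intro v hv
    rw [hV, Finset.mem_image] at hv
    obtain ⟨i, _, rfl⟩ := hv
    exact ⟨rfl, rfl⟩
  refine ⟨U, V, ?_, ?_, ?_, ?_⟩
  · rw [hU, Finset.card_image_of_injective, Finset.card_range]
    intro i j h; simp only [Prod.mk.injEq] at h; tauto
  · rw [hV, Finset.card_image_of_injective, Finset.card_range]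
    intro i j h; simp only [Prod.mk.injEq] at h; tauto
  · intro u hu u' hu' v hv v' hv' huu hvv ⟨r1, r2, r3, r4⟩
    obtain ⟨a1, a2⟩ := memU u hu
    obtain ⟨b1, b2⟩ := memU u' hu'
    obtain ⟨c1, c2⟩ := memV v hv
    obtain ⟨d1, d2⟩ := memV v' hv'
    unfold R at r1 r2 r3 r4
    rw [a1, c1, c2, zero_add, mul_zero, add_zero] at r1
    rw [b1, c1, c2, zero_add, mul_zero, add_zero] at r2
    rw [a1, d1, d2, zero_add, mul_zero, add_zero] at r3
    rw [b1, d1, d2, zero_add, mul_zero, add_zero] at r4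
    by_cases hv1 : v.1 = 0
    · have hv2 : v'.1 ≠ 0 := by
        intro h
        exact hvv (Prod.ext (by rw [hv1, h]) (Prod.ext (by rw [c1, d1]) (by rw [c2, d2])))
      have k1 : u.2.1 = 0 := (mul_eq_zero.mp r3).resolve_right hv2
      have k2 : u'.2.1 = 0 := (mul_eq_zero.mp r4).resolve_right hv2
      exact huu (Prod.ext (by rw [a1, b1]) (Prod.ext (by rw [k1, k2]) (by rw [a2, b2])))
    · have k1 : u.2.1 = 0 := (mul_eq_zero.mp r1).resolve_right hv1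
      have k2 : u'.2.1 = 0 := (mul_eq_zero.mp r2).resolve_right hv1
      exact huu (Prod.ext (by rw [a1, b1]) (Prod.ext (by rw [k1, k2]) (by rw [a2, b2])))
  · have hsub : ((Finset.range m).image (fun i => (((0, i, 0), (0, 0, 0)) :
        (ℕ × ℕ × ℕ) × (ℕ × ℕ × ℕ)))) ∪ ((Finset.range (n - 1)).image
          (fun j => (((0, 0, 0), (j + 1, 0, 0)) : (ℕ × ℕ × ℕ) × (ℕ × ℕ × ℕ)))) ⊆
        (U ×ˢ V).filter (fun p => R p.1 p.2) := by
      intro z hz
      rw [Finset.mem_filter, Finset.mem_product]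
      rcases Finset.mem_union.mp hz with h | h
      · rw [Finset.mem_image] at h
        obtain ⟨i, hi, rfl⟩ := h
        refine ⟨⟨Finset.mem_image_of_mem _ hi, ?_⟩, by simp [R]⟩
        rw [hV, Finset.mem_image]
        exact ⟨0, Finset.mem_range.mpr (by omega), rfl⟩
      · rw [Finset.mem_image] at h
        obtain ⟨j, hj, rfl⟩ := h
        rw [Finset.mem_range] at hj
        refine ⟨⟨?_, ?_⟩, by simp [R]⟩
        · rw [hU, Finset.mem_image]
          exact ⟨0, Finset.mem_range.mpr (by omega), rfl⟩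
        · rw [hV, Finset.mem_image]
          exact ⟨j + 1, Finset.mem_range.mpr (by omega), rfl⟩
    refine le_trans ?_ (Finset.card_le_card hsub)
    rw [Finset.card_union_of_disjoint, Finset.card_image_of_injective,
      Finset.card_image_of_injective, Finset.card_range, Finset.card_range]
    · omega
    · intro i j h; simp only [Prod.mk.injEq] at h; omega
    · intro i j h; simp only [Prod.mk.injEq] at h; omega
    · rw [Finset.disjoint_left]
      intro z h1 h2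
      rw [Finset.mem_image] at h1 h2
      obtain ⟨i, _, rfl⟩ := h1
      obtain ⟨j, _, h⟩ := h2
      simp only [Prod.mk.injEq] at h
      omega

/-- real parameters -/
lemma params (m n : ℕ) (hn : 1 ≤ n) (hmn : n ≤ m) : ∃ a g : ℝ, 0 < a ∧ 0 < g ∧
    a ^ 3 * g = m ∧ g ^ 3 = n * a ∧ g ≤ a ^ 2 ∧
    a * g ^ 3 = (m : ℝ) ^ ((3 : ℝ) / 5) * (n : ℝ) ^ ((4 : ℝ) / 5) := by
  have hn' : (0 : ℝ) < n := by exact_mod_cast hn
  have hm' : (0 : ℝ) < m := by exact_mod_cast (lt_of_lt_of_le hn hmn)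
  have hnm : (n : ℝ) ≤ m := by exact_mod_cast hmn
  set p : ℝ := (m : ℝ) ^ ((1 : ℝ) / 10) with hp
  set r : ℝ := (n : ℝ) ^ ((1 : ℝ) / 10) with hr
  have p0 : 0 < p := Real.rpow_pos_of_pos hm' _
  have r0 : 0 < r := Real.rpow_pos_of_pos hn' _
  have p10 : p ^ 10 = m := by
    rw [hp, ← Real.rpow_natCast, ← Real.rpow_mul hm'.le]; norm_num
  have r10 : r ^ 10 = n := by
    rw [hr, ← Real.rpow_natCast, ← Real.rpow_mul hn'.le]; norm_num
  have p6 : (m : ℝ) ^ ((3 : ℝ) / 5) = p ^ 6 := by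
    rw [hp, ← Real.rpow_natCast, ← Real.rpow_mul hm'.le]; norm_num
  have r8 : (n : ℝ) ^ ((4 : ℝ) / 5) = r ^ 8 := by
    rw [hr, ← Real.rpow_natCast, ← Real.rpow_mul hn'.le]; norm_num
  have hrp : r ≤ p := Real.rpow_le_rpow hn'.le hnm (by norm_num)
  refine ⟨p ^ 3 / r, p * r ^ 3, by positivity, by positivity, ?_, ?_, ?_, ?_⟩
  · rw [← p10]; field_simp
  · rw [← r10]; field_simp
  · rw [div_pow, le_div_iff₀ (by positivity)]
    have : r ^ 5 ≤ p ^ 5 := pow_le_pow_left₀ r0.le hrp 5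
    calc p * r ^ 3 * r ^ 2 = p * r ^ 5 := by ring
      _ ≤ p * p ^ 5 := mul_le_mul_of_nonneg_left this p0.le
      _ = (p ^ 3) ^ 2 := by ring
  · rw [p6, r8]; field_simp

set_option maxHeartbeats 2000000 in
lemma big (m n : ℕ) (hn : 1 ≤ n) (hmn : n ≤ m) :
    ∃ U V : Finset (ℕ × ℕ × ℕ), U.card = m ∧ V.card = n ∧ Free U V ∧
      (1 / 50000 : ℝ) * ((m : ℝ) ^ ((3 : ℝ) / 5) * (n : ℝ) ^ ((4 : ℝ) / 5) + m + n) ≤
        (((U ×ˢ V).filter (fun p => R p.1 p.2)).card : ℝ) := by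
  obtain ⟨a, g, ha, hg, hm, hgn, hga, hag⟩ := params m n hn hmn
  rw [← hag]
  have hn' : (1 : ℝ) ≤ n := by exact_mod_cast hn
  have hm' : (1 : ℝ) ≤ m := by exact_mod_cast (le_trans hn hmn)
  have hnm : (n : ℝ) ≤ m := by exact_mod_cast hmn
  have trivcase : a * g ^ 3 ≤ 128 * m → ∃ U V : Finset (ℕ × ℕ × ℕ), U.card = m ∧ V.card = n ∧
      Free U V ∧ (1 / 50000 : ℝ) * (a * g ^ 3 + m + n) ≤
        (((U ×ˢ V).filter (fun p => R p.1 p.2)).card : ℝ) := by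
    intro h
    obtain ⟨U, V, h1, h2, h3, h4⟩ := triv m n (le_trans hn hmn) hn
    refine ⟨U, V, h1, h2, h3, ?_⟩
    have h5 : m ≤ ((U ×ˢ V).filter (fun p => R p.1 p.2)).card := by omega
    have h6 : (m : ℝ) ≤ (((U ×ˢ V).filter (fun p => R p.1 p.2)).card : ℝ) := by exact_mod_cast h5
    linarith
  by_cases ha2 : a < 2
  · apply trivcase
    have e1 : g ≤ 4 := by nlinarith
    have : a * g ^ 3 ≤ 2 * 4 ^ 3 := by
      apply mul_le_mul ha2.le (pow_le_pow_left₀ hg.le e1 3) (by positivity) (by norm_num)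
    linarith
  push Not at ha2
  by_cases hg2 : g < 2
  · apply trivcase
    have e1 : a * g ^ 3 ≤ a ^ 3 * g := by
      have : g ^ 2 ≤ a ^ 2 := pow_le_pow_left₀ hg.le (by linarith) 2
      nlinarith [mul_pos ha hg]
    rw [hm] at e1
    linarith
  push Not at hg2
  -- main parameters
  obtain ⟨M, hM⟩ : ∃ M : ℕ, M = ⌊a / 2⌋₊ := ⟨_, rfl⟩
  obtain ⟨Q, hQ⟩ : ∃ Q : ℕ, Q = ⌊g / 2⌋₊ := ⟨_, rfl⟩
  have M1 : 1 ≤ M := by
    rw [hM]; exact Nat.le_floor (by push_cast; linarith)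
  have Q1 : 1 ≤ Q := by
    rw [hQ]; exact Nat.le_floor (by push_cast; linarith)
  have M1' : (1 : ℝ) ≤ M := by exact_mod_cast M1
  have Q1' : (1 : ℝ) ≤ Q := by exact_mod_cast Q1
  have Mle : (M : ℝ) ≤ a / 2 := by rw [hM]; exact Nat.floor_le (by positivity)
  have Qle : (Q : ℝ) ≤ g / 2 := by rw [hQ]; exact Nat.floor_le (by positivity)
  have Mlt : a / 2 < M + 1 := by rw [hM]; exact Nat.lt_floor_add_one _
  have Qlt : g / 2 < Q + 1 := by rw [hQ]; exact Nat.lt_floor_add_one _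
  have Mge : a / 4 ≤ M := by linarith
  have Qge : g / 4 ≤ Q := by linarith
  obtain ⟨q, hq, hq1, hq2⟩ := Nat.exists_prime_lt_and_le_two_mul (4 * M ^ 2 + 2 * M + Q) (by omega)
  have hq2' : (q : ℝ) ≤ 2 * (4 * M ^ 2 + 2 * M + Q) := by exact_mod_cast hq2
  have hq1' : (4 * M ^ 2 : ℝ) < q := by
    have : 4 * M ^ 2 < q := by omega
    exact_mod_cast this
  have qpos : (0 : ℝ) < q := by exact_mod_cast hq.pos
  have Qle2 : (Q : ℝ) ≤ 8 * M ^ 2 := by
    have : a ≤ 4 * M := by linarith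
    nlinarith
  have q28 : (q : ℝ) ≤ 28 * M ^ 2 := by nlinarith
  by_cases hQq : Q ^ 2 < q
  · apply trivcase
    have e1 : (Q : ℝ) ^ 2 < q := by exact_mod_cast hQq
    have e2 : g ^ 2 ≤ 16 * Q ^ 2 := by nlinarith
    have e3 : g ^ 2 ≤ 112 * a ^ 2 := by nlinarith
    have e4 : a * g ^ 3 ≤ 112 * (a ^ 3 * g) := by
      calc a * g ^ 3 = (a * g) * g ^ 2 := by ring
        _ ≤ (a * g) * (112 * a ^ 2) := mul_le_mul_of_nonneg_left e3 (by positivity)
        _ = 112 * (a ^ 3 * g) := by ring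
    rw [hm] at e4
    linarith
  push Not at hQq
  obtain ⟨A, hA⟩ : ∃ A : ℕ, A = Q ^ 2 / q := ⟨_, rfl⟩
  have A1 : 1 ≤ A := by
    rw [hA]; exact (Nat.one_le_div_iff hq.pos).mpr hQq
  have A1' : (1 : ℝ) ≤ A := by exact_mod_cast A1
  have Ale : (A : ℝ) * q ≤ Q ^ 2 := by
    have : A * q ≤ Q ^ 2 := by rw [hA]; exact Nat.div_mul_le_self _ _
    exact_mod_cast this
  have Age : (Q : ℝ) ^ 2 ≤ 2 * (A * q) := by
    have : Q ^ 2 < (A + 1) * q := by
      rw [hA]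
      exact (Nat.div_lt_iff_lt_mul hq.pos).mp (Nat.lt_succ_self _)
    have h2 : (Q : ℝ) ^ 2 < (A + 1) * q := by exact_mod_cast this
    have h3 : 1 * (q : ℝ) ≤ A * q := mul_le_mul_of_nonneg_right A1' qpos.le
    linarith
  have cm : M * Q * (M + 1) ^ 2 ≤ m := by
    have h1 : (M : ℝ) + 1 ≤ a := by linarith
    have h2 : (M : ℝ) * Q * (M + 1) ^ 2 ≤ (a / 2) * (g / 2) * a ^ 2 := by
      apply mul_le_mul (mul_le_mul Mle Qle (by positivity) (by positivity))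
        (pow_le_pow_left₀ (by positivity) h1 2) (by positivity) (by positivity)
    have h3 : (a / 2) * (g / 2) * a ^ 2 = m / 4 := by rw [← hm]; ring
    have h4 : (M : ℝ) * Q * (M + 1) ^ 2 ≤ m := by linarith
    exact_mod_cast h4
  have cn : (Q ^ 2 / q) * (3 * (M * Q)) ≤ n := by
    rw [← hA]
    -- A ≤ Q^2 / (4 M^2)
    have h1 : (A : ℝ) * (4 * M ^ 2) ≤ Q ^ 2 :=
      le_trans (mul_le_mul_of_nonneg_left hq1'.le (by positivity)) Ale
    have h2 : (Q : ℝ) ^ 3 ≤ (g / 2) ^ 3 := pow_le_pow_left₀ (by positivity) Qle 3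
    have h3 : (A : ℝ) * (3 * (M * Q)) * (4 * M) ≤ 3 * Q ^ 3 := by
      calc (A : ℝ) * (3 * (M * Q)) * (4 * M) = 3 * Q * (A * (4 * M ^ 2)) := by ring
        _ ≤ 3 * Q * Q ^ 2 := mul_le_mul_of_nonneg_left h1 (by positivity)
        _ = 3 * Q ^ 3 := by ring
    have h4 : (A : ℝ) * (3 * (M * Q)) * (4 * M) ≤ n * (4 * M) := by
      have : 3 * (g / 2) ^ 3 = 3 / 8 * (n * a) := by rw [← hgn]; ring
      have h5 : 3 / 8 * ((n : ℝ) * a) ≤ n * (4 * M) := by nlinarith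
      linarith
    have h6 : (A : ℝ) * (3 * (M * Q)) ≤ n := le_of_mul_le_mul_right h4 (by positivity)
    exact_mod_cast h6
  obtain ⟨U, V, h1, h2, h3, h4⟩ := core M Q q m n hq (by omega) (by omega) cm cn
  refine ⟨U, V, h1, h2, h3, ?_⟩
  rw [← hA] at h4
  have h4' : (M : ℝ) * Q * (M + 1) ^ 2 * A ≤
      (((U ×ˢ V).filter (fun p => R p.1 p.2)).card : ℝ) := by exact_mod_cast h4
  -- lower bound
  have k1 : (M : ℝ) * Q ^ 3 ≤ 56 * (M * Q * (M + 1) ^ 2 * A) := by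
    have e1 : (Q : ℝ) ^ 2 ≤ 56 * (A * M ^ 2) := by
      have := mul_le_mul_of_nonneg_left q28 (by positivity : (0 : ℝ) ≤ A)
      linarith
    have e2 : (A : ℝ) * M ^ 2 ≤ A * (M + 1) ^ 2 := by
      apply mul_le_mul_of_nonneg_left _ (by positivity)
      nlinarith
    calc (M : ℝ) * Q ^ 3 = (M : ℝ) * Q * Q ^ 2 := by ring
      _ ≤ (M : ℝ) * Q * (56 * (A * (M + 1) ^ 2)) := by
          apply mul_le_mul_of_nonneg_left _ (by positivity)
          linarith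
      _ = _ := by ring
  have k2 : a * g ^ 3 ≤ 256 * (M * Q ^ 3) := by
    have : (g / 4) ^ 3 ≤ (Q : ℝ) ^ 3 := pow_le_pow_left₀ (by positivity) Qge 3
    calc a * g ^ 3 = (256 : ℝ) * ((a / 4) * (g / 4) ^ 3) := by ring
      _ ≤ (256 : ℝ) * ((M : ℝ) * (Q : ℝ) ^ 3) := by
          apply mul_le_mul_of_nonneg_left _ (by norm_num)
          exact mul_le_mul Mge this (by positivity) (by positivity)
  have k3 : (m : ℝ) ≤ a * g ^ 3 := by
    have e1 : (2 * M : ℝ) ^ 2 ≤ (Q : ℝ) ^ 2 := by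
      have : (q : ℝ) ≤ (Q : ℝ) ^ 2 := by exact_mod_cast hQq
      nlinarith
    have e2 : (2 * M : ℝ) ≤ Q := by
      by_contra hc
      push Not at hc
      nlinarith
    have e3 : a ≤ g := by linarith
    have e4 : a ^ 2 ≤ g ^ 2 := pow_le_pow_left₀ ha.le e3 2
    calc (m : ℝ) = (a * g) * a ^ 2 := by rw [← hm]; ring
      _ ≤ (a * g) * g ^ 2 := mul_le_mul_of_nonneg_left e4 (by positivity)
      _ = a * g ^ 3 := by ring
  linarith

/-- Let `f_2(m,n)` be the maximal number of incidences between `m` points and `n` planes in `ℝ³`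
whose incidence graph contains no `K_{2,2}`.  Then
`f_2(m,n) ≥ c (min (m^{4/5} n^{3/5}) (m^{3/5} n^{4/5}) + m + n)` for all `m, n ≥ 1`. -/
theorem result : ∃ c : ℝ, 0 < c ∧ ∀ m n : ℕ, 1 ≤ m → 1 ≤ n →
    ∃ (P : Finset (ℝ × ℝ × ℝ)) (H : Finset (Set (ℝ × ℝ × ℝ))),
      P.card = m ∧ H.card = n ∧
      (∀ h ∈ H, ∃ a b c d : ℝ, ¬ (a = 0 ∧ b = 0 ∧ c = 0) ∧
        h = {p : ℝ × ℝ × ℝ | a * p.1 + b * p.2.1 + c * p.2.2 = d}) ∧
      (∀ p ∈ P, ∀ p' ∈ P, ∀ h ∈ H, ∀ h' ∈ H, p ≠ p' → h ≠ h' →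
        ¬ (p ∈ h ∧ p' ∈ h ∧ p ∈ h' ∧ p' ∈ h')) ∧
      c * (min ((m : ℝ) ^ ((4 : ℝ) / 5) * (n : ℝ) ^ ((3 : ℝ) / 5))
            ((m : ℝ) ^ ((3 : ℝ) / 5) * (n : ℝ) ^ ((4 : ℝ) / 5)) + m + n) ≤
        (({x : (ℝ × ℝ × ℝ) × Set (ℝ × ℝ × ℝ) | x.1 ∈ P ∧ x.2 ∈ H ∧ x.1 ∈ x.2}.ncard : ℕ) : ℝ) := by
  classical
  refine ⟨1 / 50000, by norm_num, ?_⟩
  intro m n hm hn
  -- a transfer principle
  have transfer : ∀ (U V : Finset (ℕ × ℕ × ℕ)) (S : (ℕ × ℕ × ℕ) → (ℕ × ℕ × ℕ) → Prop)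
      (pt : ℕ × ℕ × ℕ → ℝ × ℝ × ℝ) (pl : ℕ × ℕ × ℕ → Set (ℝ × ℝ × ℝ)),
      Function.Injective pt → Function.Injective pl →
      (∀ u v, S u v ↔ pt u ∈ pl v) →
      (∀ v, ∃ a b c d : ℝ, ¬ (a = 0 ∧ b = 0 ∧ c = 0) ∧
        pl v = {p : ℝ × ℝ × ℝ | a * p.1 + b * p.2.1 + c * p.2.2 = d}) →
      (∀ u ∈ U, ∀ u' ∈ U, ∀ v ∈ V, ∀ v' ∈ V, u ≠ u' → v ≠ v' →
        ¬ (S u v ∧ S u' v ∧ S u v' ∧ S u' v')) →
      ∀ B : ℝ, B ≤ (((U ×ˢ V).filter (fun p => S p.1 p.2)).card : ℝ) →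
      ∃ (P : Finset (ℝ × ℝ × ℝ)) (H : Finset (Set (ℝ × ℝ × ℝ))),
        P.card = U.card ∧ H.card = V.card ∧
        (∀ h ∈ H, ∃ a b c d : ℝ, ¬ (a = 0 ∧ b = 0 ∧ c = 0) ∧
          h = {p : ℝ × ℝ × ℝ | a * p.1 + b * p.2.1 + c * p.2.2 = d}) ∧
        (∀ p ∈ P, ∀ p' ∈ P, ∀ h ∈ H, ∀ h' ∈ H, p ≠ p' → h ≠ h' →
          ¬ (p ∈ h ∧ p' ∈ h ∧ p ∈ h' ∧ p' ∈ h')) ∧
        B ≤ (({x : (ℝ × ℝ × ℝ) × Set (ℝ × ℝ × ℝ) |
          x.1 ∈ P ∧ x.2 ∈ H ∧ x.1 ∈ x.2}.ncard : ℕ) : ℝ) := by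
    intro U V S pt pl hpt hpl hS hplane hfree B hB
    refine ⟨U.image pt, V.image pl, Finset.card_image_of_injective _ hpt,
      Finset.card_image_of_injective _ hpl, ?_, ?_, ?_⟩
    · intro h hh
      rw [Finset.mem_image] at hh
      obtain ⟨v, _, rfl⟩ := hh
      exact hplane v
    · intro p hp p' hp' h hh h' hh' hpp hhh
      rw [Finset.mem_image] at hp hp' hh hh'
      obtain ⟨u, hu, rfl⟩ := hp
      obtain ⟨u', hu', rfl⟩ := hp'
      obtain ⟨v, hv, rfl⟩ := hh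
      obtain ⟨v', hv', rfl⟩ := hh'
      rw [← hS, ← hS, ← hS, ← hS]
      exact hfree u hu u' hu' v hv v' hv' (fun h => hpp (by rw [h])) (fun h => hhh (by rw [h]))
    · refine le_trans hB (Nat.cast_le.mpr ?_)
      rw [← Finset.card_image_of_injective _ (Function.Injective.prodMap hpt hpl),
        ← Set.ncard_coe_finset]
      apply Set.ncard_le_ncard
      · intro z hz
        rw [Finset.mem_coe, Finset.mem_image] at hz
        obtain ⟨x, hx, rfl⟩ := hz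
        rw [Finset.mem_filter, Finset.mem_product] at hx
        exact ⟨Finset.mem_image_of_mem _ hx.1.1, Finset.mem_image_of_mem _ hx.1.2,
          (hS _ _).mp hx.2⟩
      · apply Set.Finite.subset ((U.image pt ×ˢ V.image pl).finite_toSet)
        rintro x ⟨h1, h2, _⟩
        rw [Finset.mem_coe, Finset.mem_product]
        exact ⟨h1, h2⟩
  rcases le_total n m with hmn | hmn
  · obtain ⟨U, V, h1, h2, h3, h4⟩ := big m n hn hmn
    have := transfer U V R (fun u => ((u.1 : ℝ), (u.2.1 : ℝ), (u.2.2 : ℝ)))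
      (fun v => {p : ℝ × ℝ × ℝ | 1 * p.1 + (v.1 : ℝ) * p.2.1 + (v.2.1 : ℝ) * p.2.2 = (v.2.2 : ℝ)})
      (by
        intro u u' h
        simp only [Prod.mk.injEq, Nat.cast_inj] at h
        exact Prod.ext h.1 (Prod.ext h.2.1 h.2.2))
      (by
        intro v v' h
        have e0 : ((v.2.2 : ℝ), (0 : ℝ), (0 : ℝ)) ∈ {p : ℝ × ℝ × ℝ |
            1 * p.1 + (v.1 : ℝ) * p.2.1 + (v.2.1 : ℝ) * p.2.2 = (v.2.2 : ℝ)} := by simp
        have e1 : ((v.2.2 : ℝ) - v.1, (1 : ℝ), (0 : ℝ)) ∈ {p : ℝ × ℝ × ℝ |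
            1 * p.1 + (v.1 : ℝ) * p.2.1 + (v.2.1 : ℝ) * p.2.2 = (v.2.2 : ℝ)} := by simp
        have e2 : ((v.2.2 : ℝ) - v.2.1, (0 : ℝ), (1 : ℝ)) ∈ {p : ℝ × ℝ × ℝ |
            1 * p.1 + (v.1 : ℝ) * p.2.1 + (v.2.1 : ℝ) * p.2.2 = (v.2.2 : ℝ)} := by simp
        simp only at h
        rw [h] at e0 e1 e2
        simp only [Set.mem_ofPred_eq, one_mul, mul_zero, add_zero, mul_one] at e0 e1 e2
        have f1 : (v.2.2 : ℝ) = v'.2.2 := e0
        have f2 : (v.1 : ℝ) = v'.1 := by linarith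
        have f3 : (v.2.1 : ℝ) = v'.2.1 := by linarith
        exact Prod.ext (by exact_mod_cast f2) (Prod.ext (by exact_mod_cast f3)
          (by exact_mod_cast f1)))
      (by
        intro u v
        simp only [Set.mem_ofPred_eq, R]
        constructor
        · intro h
          have : ((u.1 + u.2.1 * v.1 + u.2.2 * v.2.1 : ℕ) : ℝ) = (v.2.2 : ℝ) := by rw [h]
          push_cast at this
          linarith
        · intro h
          have : ((u.1 + u.2.1 * v.1 + u.2.2 * v.2.1 : ℕ) : ℝ) = (v.2.2 : ℝ) := by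
            push_cast; linarith
          exact_mod_cast this)
      (by intro v; exact ⟨1, _, _, _, by simp, rfl⟩)
      h3 ((1 / 50000 : ℝ) * (min ((m : ℝ) ^ ((4 : ℝ) / 5) * (n : ℝ) ^ ((3 : ℝ) / 5))
            ((m : ℝ) ^ ((3 : ℝ) / 5) * (n : ℝ) ^ ((4 : ℝ) / 5)) + m + n)) (by
        have h5 := min_le_right ((m : ℝ) ^ ((4 : ℝ) / 5) * (n : ℝ) ^ ((3 : ℝ) / 5))
            ((m : ℝ) ^ ((3 : ℝ) / 5) * (n : ℝ) ^ ((4 : ℝ) / 5))
        refine (le_trans ?_ h4).trans_eq (by congr)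
        linarith)
    rwa [h1, h2] at this
  · obtain ⟨U, V, h1, h2, h3, h4⟩ := big n m hm hmn
    have hswap : ((U ×ˢ V).filter (fun p => R p.1 p.2)).card =
        ((V ×ˢ U).filter (fun p => R p.2 p.1)).card := by
      apply Finset.card_bij (fun p _ => (p.2, p.1))
      · intro p hp
        rw [Finset.mem_filter, Finset.mem_product] at hp ⊢
        exact ⟨⟨hp.1.2, hp.1.1⟩, hp.2⟩
      · rintro ⟨a, b⟩ _ ⟨c, d⟩ _ h
        simp only [Prod.mk.injEq] at h ⊢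
        exact ⟨h.2, h.1⟩
      · rintro ⟨a, b⟩ hp
        rw [Finset.mem_filter, Finset.mem_product] at hp
        exact ⟨(b, a), by rw [Finset.mem_filter, Finset.mem_product]; exact ⟨⟨hp.1.2, hp.1.1⟩, hp.2⟩,
          rfl⟩
    rw [hswap] at h4
    have := transfer V U (fun v u => R u v) (fun v => ((v.1 : ℝ), (v.2.1 : ℝ), (v.2.2 : ℝ)))
      (fun u => {p : ℝ × ℝ × ℝ | (u.2.1 : ℝ) * p.1 + (u.2.2 : ℝ) * p.2.1 + (-1) * p.2.2 =
        -(u.1 : ℝ)})
      (by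
        intro u u' h
        simp only [Prod.mk.injEq, Nat.cast_inj] at h
        exact Prod.ext h.1 (Prod.ext h.2.1 h.2.2))
      (by
        intro v v' h
        have e0 : ((0 : ℝ), (0 : ℝ), (v.1 : ℝ)) ∈ {p : ℝ × ℝ × ℝ |
            (v.2.1 : ℝ) * p.1 + (v.2.2 : ℝ) * p.2.1 + (-1) * p.2.2 = -(v.1 : ℝ)} := by simp
        have e1 : ((1 : ℝ), (0 : ℝ), (v.1 : ℝ) + v.2.1) ∈ {p : ℝ × ℝ × ℝ |
            (v.2.1 : ℝ) * p.1 + (v.2.2 : ℝ) * p.2.1 + (-1) * p.2.2 = -(v.1 : ℝ)} := by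
          simp only [Set.mem_ofPred_eq]; ring
        have e2 : ((0 : ℝ), (1 : ℝ), (v.1 : ℝ) + v.2.2) ∈ {p : ℝ × ℝ × ℝ |
            (v.2.1 : ℝ) * p.1 + (v.2.2 : ℝ) * p.2.1 + (-1) * p.2.2 = -(v.1 : ℝ)} := by
          simp only [Set.mem_ofPred_eq]; ring
        simp only at h
        rw [h] at e0 e1 e2
        simp only [Set.mem_ofPred_eq] at e0 e1 e2
        have f1 : (v.1 : ℝ) = v'.1 := by linarith
        have f2 : (v.2.1 : ℝ) = v'.2.1 := by linarith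
        have f3 : (v.2.2 : ℝ) = v'.2.2 := by linarith
        exact Prod.ext (by exact_mod_cast f1) (Prod.ext (by exact_mod_cast f2)
          (by exact_mod_cast f3)))
      (by
        intro v u
        simp only [Set.mem_ofPred_eq, R]
        constructor
        · intro h
          have : ((u.1 + u.2.1 * v.1 + u.2.2 * v.2.1 : ℕ) : ℝ) = (v.2.2 : ℝ) := by rw [h]
          push_cast at this
          linarith
        · intro h
          have : ((u.1 + u.2.1 * v.1 + u.2.2 * v.2.1 : ℕ) : ℝ) = (v.2.2 : ℝ) := by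
            push_cast; linarith
          exact_mod_cast this)
      (by intro v; exact ⟨_, _, -1, _, by simp, rfl⟩)
      (by
        intro v hv v' hv' u hu u' hu' hvv huu ⟨r1, r2, r3, r4⟩
        exact h3 u hu u' hu' v hv v' hv' huu hvv ⟨r1, r3, r2, r4⟩)
      ((1 / 50000 : ℝ) * (min ((m : ℝ) ^ ((4 : ℝ) / 5) * (n : ℝ) ^ ((3 : ℝ) / 5))
            ((m : ℝ) ^ ((3 : ℝ) / 5) * (n : ℝ) ^ ((4 : ℝ) / 5)) + m + n)) (by
        have h5 := min_le_left ((m : ℝ) ^ ((4 : ℝ) / 5) * (n : ℝ) ^ ((3 : ℝ) / 5))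
            ((m : ℝ) ^ ((3 : ℝ) / 5) * (n : ℝ) ^ ((4 : ℝ) / 5))
        refine (le_trans ?_ h4).trans_eq (by congr)
        rw [mul_comm ((n : ℝ) ^ ((3 : ℝ) / 5)) ((m : ℝ) ^ ((4 : ℝ) / 5))]
        linarith)
    rwa [h1, h2] at this

end Pool.Agent.Results.MP_0f9b7a_co.KTwoTwo
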